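import Pool.Agent.ED72.Curve

/-!
# The number of monic polynomials of degree less than `N` dividing a power of
`X (1 + X + … + X ^ (A - 1))`
-/

namespace Pool.Agent.ED72

open Polynomial Finset

section

variable {k : Type*} [Field k]

theorem geom_ne_zero (A : ℕ) (hA : 0 < A) : (X * ∑ i ∈ range A, (X : k[X]) ^ i) ≠ 0 :=
  mul_ne_zero X_ne_zero (monic_geom A hA).ne_zero

theorem smooth_finite (A N : ℕ) (hA : 0 < A) : (smooth k A N).Finite := by
  classical
  set P : k[X] := X * ∑ i ∈ range A, X ^ i with hP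
  have hP0 : P ≠ 0 := geom_ne_zero A hA
  set E := AlgebraicClosure k with hE
  set Z : Multiset E := (P.map (algebraMap k E)).roots.dedup with hZ
  have hfin : {s : Multiset E | s ≤ N • Z}.Finite := Set.finite_Iic _
  refine Set.Finite.of_finite_image (f := fun R : k[X] => (R.map (algebraMap k E)).roots)
    (hfin.subset ?_) ?_
  · rintro _ ⟨R, ⟨hRm, hRd, j, hj⟩, rfl⟩
    rw [Set.mem_ofPred_eq]
    simp only
    rw [Multiset.le_iff_count]
    intro x
    rw [Multiset.count_nsmul]
    by_cases hx : x ∈ (R.map (algebraMap k E)).roots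
    · have h1 : x ∈ Z := by
        rw [hZ, Multiset.mem_dedup, mem_roots ((Polynomial.map_ne_zero_iff
          (algebraMap k E).injective).2 hP0), IsRoot.def]
        rw [mem_roots ((Polynomial.map_ne_zero_iff (algebraMap k E).injective).2 hRm.ne_zero),
          IsRoot.def] at hx
        have h2 : R.map (algebraMap k E) ∣ (P.map (algebraMap k E)) ^ j := by
          rw [← Polynomial.map_pow]
          exact Polynomial.map_dvd _ hj
        have h3 := eval_dvd (x := x) h2
        rw [hx, zero_dvd_iff, eval_pow] at h3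
        exact eq_zero_of_pow_eq_zero h3
      have h2 : 1 ≤ Z.count x := Multiset.one_le_count_iff_mem.2 h1
      have h3 : (R.map (algebraMap k E)).roots.count x ≤ N := by
        refine (Multiset.count_le_card _ _).trans ?_
        refine (card_roots' _).trans ?_
        rw [natDegree_map]
        exact hRd.le
      nlinarith
    · rw [Multiset.count_eq_zero_of_notMem hx]
      exact Nat.zero_le _
  · rintro R ⟨hRm, -, -⟩ R' ⟨hRm', -, -⟩ h
    apply map_injective _ (algebraMap k E).injective
    have h1 := (IsAlgClosed.splits (R.map (algebraMap k E))).eq_prod_roots_of_monic (hRm.map _)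
    have h2 := (IsAlgClosed.splits (R'.map (algebraMap k E))).eq_prod_roots_of_monic (hRm'.map _)
    rw [h1, h2]
    simp only at h
    rw [h]

theorem prod_pow_injective {ι : Type*} [Fintype ι] (P : ι → k[X])
    (hcop : ∀ i j, i ≠ j → IsCoprime (P i) (P j)) (hpos : ∀ i, 0 < (P i).natDegree)
    (a b : ι → ℕ) (h : ∏ i, P i ^ a i = ∏ i, P i ^ b i) : a = b := by
  classical
  have key : ∀ a b : ι → ℕ, ∏ i, P i ^ a i = ∏ i, P i ^ b i → ∀ i, a i ≤ b i := by
    intro a b h i
    have h1 : P i ^ a i ∣ ∏ i, P i ^ b i := by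
      rw [← h]
      exact dvd_prod_of_mem _ (mem_univ i)
    rw [← mul_prod_erase _ _ (mem_univ i)] at h1
    have h2 : IsCoprime (P i ^ a i) (∏ j ∈ univ.erase i, P j ^ b j) := by
      refine IsCoprime.prod_right fun j hj => ?_
      exact (hcop i j (ne_of_mem_erase hj).symm).pow
    have h3 := h2.dvd_of_dvd_mul_right h1
    have hne : P i ≠ 0 := by
      intro h0
      have := hpos i
      rw [h0, natDegree_zero] at this
      exact lt_irrefl _ this
    have h4 := natDegree_le_of_dvd h3 (pow_ne_zero _ hne)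
    rw [natDegree_pow, natDegree_pow] at h4
    exact Nat.le_of_mul_le_mul_right h4 (hpos i)
  funext i
  exact le_antisymm (key a b h i) (key b a h.symm i)

theorem card_le_ncard {ι : Type*} [Fintype ι] (A N : ℕ) (hA : 0 < A) (P : ι → k[X])
    (hmon : ∀ i, (P i).Monic)
    (hcop : ∀ i j, i ≠ j → IsCoprime (P i) (P j)) (hpos : ∀ i, 0 < (P i).natDegree)
    (hdvd : ∀ i, P i ∣ X * ∑ i ∈ range A, X ^ i) (M : Finset (ι → ℕ))
    (hM : ∀ a ∈ M, ∑ i, a i * (P i).natDegree < N) : M.card ≤ (smooth k A N).ncard := by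
  classical
  have hfin := smooth_finite (k := k) A N hA
  have h1 : ((M.image fun a => ∏ i, P i ^ a i : Finset k[X]) : Set k[X]) ⊆ smooth k A N := by
    intro R hR
    rw [mem_coe, mem_image] at hR
    obtain ⟨a, ha, rfl⟩ := hR
    refine ⟨monic_prod_of_monic _ _ fun i _ => (hmon i).pow _, ?_, ∑ i, a i, ?_⟩
    · rw [natDegree_prod_of_monic _ _ fun i _ => (hmon i).pow _]
      simp only [natDegree_pow]
      exact hM a ha
    · rw [← prod_pow_eq_pow_sum]
      exact prod_dvd_prod_of_dvd _ _ fun i _ => pow_dvd_pow_of_dvd (hdvd i) _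
  have h2 := Set.ncard_le_ncard h1 hfin
  rw [Set.ncard_coe_finset, card_image_of_injective _
    (fun a b h => prod_pow_injective P hcop hpos a b h)] at h2
  exact h2

variable [CharZero k]

theorem ncard_ge_divisors (A N q : ℕ) (hA : 0 < A) (hq : q * A < N) :
    (q + 1) ^ A.divisors.card ≤ (smooth k A N).ncard := by
  classical
  set P : A.divisors → k[X] := fun d => if (d : ℕ) = 1 then X else cyclotomic d k with hP
  have hdeg : ∀ d, (P d).natDegree = Nat.totient d := by
    intro d
    rw [hP]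
    simp only
    split_ifs with h
    · rw [natDegree_X, h, Nat.totient_one]
    · exact natDegree_cyclotomic _ _
  have hdpos : ∀ d : A.divisors, 0 < (d : ℕ) := fun d => Nat.pos_of_mem_divisors d.2
  have hcyc : ∀ d : A.divisors, (d : ℕ) ≠ 1 → IsCoprime (X : k[X]) (cyclotomic d k) := by
    intro d hd
    have h1 : 1 < (d : ℕ) := by
      have := hdpos d
      omega
    have h2 := cyclotomic_coeff_zero k h1
    refine ⟨-(cyclotomic d k).divX, 1, ?_⟩
    have h3 := (cyclotomic (d : ℕ) k).X_mul_divX_add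
    rw [h2, C_1] at h3
    linear_combination (-1 : k[X]) * h3
  have hmain := card_le_ncard (k := k) A N hA P ?_ ?_ ?_ ?_
    (Fintype.piFinset fun _ => range (q + 1)) ?_
  · refine le_trans (le_of_eq ?_) hmain
    rw [Fintype.card_piFinset]
    simp
  · intro d
    rw [hP]
    simp only
    split_ifs with h
    · exact monic_X
    · exact cyclotomic.monic _ _
  · intro d e hde
    have hde' : (d : ℕ) ≠ e := fun h => hde (Subtype.ext h)
    rw [hP]
    simp only
    split_ifs with h1 h2 h2
    · exact absurd (h1.trans h2.symm) hde'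
    · exact hcyc e h2
    · exact (hcyc d h1).symm
    · have h3 := (cyclotomic.isCoprime_rat hde').map (mapRingHom (algebraMap ℚ k))
      simpa using h3
  · intro d
    rw [hdeg]
    exact Nat.totient_pos.2 (hdpos d)
  · intro d
    rw [hP]
    simp only
    split_ifs with h
    · exact Dvd.intro _ rfl
    · exact (cyclotomic_dvd_geom_sum_of_dvd k (Nat.dvd_of_mem_divisors d.2) h).trans
        (Dvd.intro_left _ rfl)
  · intro a ha
    rw [Fintype.mem_piFinset] at ha
    simp only [hdeg]
    have h1 : ∑ d : A.divisors, a d * Nat.totient d ≤ ∑ d : A.divisors, q * Nat.totient d := by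
      refine Finset.sum_le_sum fun d _ => Nat.mul_le_mul_right _ ?_
      have := mem_range.1 (ha d)
      omega
    have h2 : ∑ d : A.divisors, q * Nat.totient d = q * A := by
      rw [← Finset.mul_sum, Finset.univ_eq_attach, Finset.sum_attach A.divisors Nat.totient,
        Nat.sum_totient]
    omega

omit [CharZero k] in
theorem ncard_ge_choose (A N : ℕ) (hA : 0 < A) (hN : 0 < N) (ζ : k) (hζ : IsPrimitiveRoot ζ A) :
    (N + A - 1).choose A ≤ (smooth k A N).ncard := by
  classical
  set f : Fin A → k := fun i => if (i : ℕ) = 0 then 0 else ζ ^ (i : ℕ) with hf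
  have hζ0 : ζ ≠ 0 := hζ.ne_zero hA.ne'
  have hinj : Function.Injective f := by
    intro i j h
    rw [hf] at h
    simp only at h
    split_ifs at h with h1 h2 h2
    · exact Fin.ext (h1.trans h2.symm)
    · exact absurd h.symm (pow_ne_zero _ hζ0)
    · exact absurd h (pow_ne_zero _ hζ0)
    · exact Fin.ext (hζ.pow_inj i.2 j.2 h)
  set M : Finset (Fin A → ℕ) := ((univ : Finset (Fin (A + 1))).finsuppAntidiag (N - 1)).image
    fun m => fun i => m i.succ with hM
  have hsum : ∀ m ∈ (univ : Finset (Fin (A + 1))).finsuppAntidiag (N - 1),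
      m 0 + ∑ i : Fin A, m i.succ = N - 1 := by
    intro m hm
    rw [mem_finsuppAntidiag] at hm
    rw [← hm.1, Fin.sum_univ_succ]
  have hcard : M.card = (N + A - 1).choose A := by
    rw [hM, card_image_of_injOn, card_finsuppAntidiag_nat_eq_choose, card_univ, Fintype.card_fin]
    · have h1 : A + 1 + (N - 1) - 1 = N + A - 1 := by omega
      rw [h1]
      refine (Nat.choose_symm_of_eq_add ?_).symm
      omega
    · intro m hm m' hm' h
      have h1 : ∀ i : Fin A, m i.succ = m' i.succ := fun i => congrFun h i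
      have h2 := hsum m hm
      have h3 := hsum m' hm'
      have h4 : ∑ i : Fin A, m i.succ = ∑ i : Fin A, m' i.succ :=
        Finset.sum_congr rfl fun i _ => h1 i
      ext i
      refine Fin.cases ?_ h1 i
      omega
  rw [← hcard]
  refine card_le_ncard A N hA (fun i => X - C (f i)) (fun i => monic_X_sub_C _) ?_ ?_ ?_ M ?_
  · intro i j hij
    exact isCoprime_X_sub_C_of_isUnit_sub (isUnit_iff_ne_zero.2
      (sub_ne_zero.2 fun h => hij (hinj h)))
  · intro i
    rw [natDegree_X_sub_C]
    exact one_pos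
  · intro i
    rw [dvd_iff_isRoot, IsRoot.def, eval_mul, eval_X, hf]
    simp only
    split_ifs with h
    · rw [zero_mul]
    · have h1 : ζ ^ (i : ℕ) ≠ 1 := hζ.pow_ne_one_of_pos_of_lt h i.2
      have h2 : eval (ζ ^ (i : ℕ)) (∑ i ∈ range A, (X : k[X]) ^ i) * (ζ ^ (i : ℕ) - 1) = 0 := by
        have h3 := congrArg (eval (ζ ^ (i : ℕ))) (geom_sum_mul (X : k[X]) A)
        rw [eval_mul, eval_sub, eval_X, eval_one, eval_sub, eval_pow, eval_X, eval_one, ← pow_mul,
          mul_comm (i : ℕ) A, pow_mul, hζ.pow_eq_one, one_pow, sub_self] at h3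
        exact h3
      rw [(mul_eq_zero.1 h2).resolve_right (sub_ne_zero.2 h1), mul_zero]
  · intro a ha
    rw [hM, mem_image] at ha
    obtain ⟨m, hm, rfl⟩ := ha
    have h1 := hsum m hm
    simp only [natDegree_X_sub_C, mul_one]
    omega

end

theorem exists_quot (N A : ℕ) (hN : 0 < N) (hA : 0 < A) :
    ∃ q : ℕ, q * A < N ∧ N ≤ (q + 1) * A := by
  refine ⟨(N - 1) / A, ?_, ?_⟩
  · have := Nat.div_mul_le_self (N - 1) A
    omega
  · have h := Nat.div_add_mod (N - 1) A
    have h1 := Nat.mod_lt (N - 1) hA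
    have h2 : ((N - 1) / A + 1) * A = A * ((N - 1) / A) + A := by ring
    omega

/-- The number of these polynomials grows faster than every power of `1 / ε`. -/
theorem growth (j : ℕ) : ∃ c : ℝ, 0 < c ∧ ∀ (k : Type*) [Field k] [CharZero k] (ε : ℝ), 0 < ε →
    ε < 1 → ∃ A N : ℕ, 0 < A ∧ A ≤ N ∧ ε * (N - 1) < 1 ∧
      c / ε ^ j + 1 < (smooth k A N).ncard := by
  set A : ℕ := 2 ^ j with hA
  have hA0 : 0 < A := by positivity
  have hA1 : (1 : ℝ) ≤ A := by exact_mod_cast hA0
  set δ : ℝ := 1 / (2 * (A : ℝ) ^ (j + 2)) with hδ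
  have hδ0 : 0 < δ := by positivity
  have hδ1 : δ < 1 := by
    rw [hδ, div_lt_one (by positivity)]
    have := one_le_pow₀ hA1 (n := j + 2)
    linarith
  refine ⟨δ ^ j / 2, by positivity, fun k _ _ ε hε hε1 => ?_⟩
  set N : ℕ := ⌈1 / ε⌉₊ with hN
  have hNle : 1 / ε ≤ N := Nat.le_ceil _
  have hNlt : (N : ℝ) < 1 / ε + 1 := Nat.ceil_lt_add_one (by positivity)
  have hεN : ε * ((N : ℝ) - 1) < 1 := by
    have h1 : (N : ℝ) - 1 < 1 / ε := by linarith
    have h2 := mul_lt_mul_of_pos_left h1 hε
    rwa [mul_one_div_cancel hε.ne'] at h2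
  have h1ε : 1 < 1 / ε := by
    rw [lt_div_iff₀ hε, one_mul]
    exact hε1
  have hN2 : 2 ≤ N := by
    have h1 : (1 : ℝ) < N := h1ε.trans_le hNle
    have h2 : 1 < N := by exact_mod_cast h1
    omega
  have hpow1 : 1 ≤ 1 / ε ^ j := by
    rw [le_div_iff₀ (by positivity), one_mul]
    exact pow_le_one₀ hε.le hε1.le
  rcases le_or_gt ε δ with h | h
  · refine ⟨A, N, hA0, ?_, hεN, ?_⟩
    · -- `A ≤ N`
      have h1 : 1 / δ ≤ 1 / ε := one_div_le_one_div_of_le hε h
      have h2 : 1 / δ = 2 * (A : ℝ) ^ (j + 2) := by rw [hδ, one_div_one_div]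
      have h3 : (A : ℝ) ≤ 2 * (A : ℝ) ^ (j + 2) := by
        have h4 : (A : ℝ) ^ 1 ≤ (A : ℝ) ^ (j + 2) := pow_le_pow_right₀ hA1 (by omega)
        have h5 : (0 : ℝ) < (A : ℝ) ^ (j + 2) := by positivity
        rw [pow_one] at h4
        linarith
      have h4 : (A : ℝ) ≤ N := by linarith
      exact_mod_cast h4
    · obtain ⟨q, hqA, hq1⟩ : ∃ q : ℕ, q * A < N ∧ N ≤ (q + 1) * A :=
        exists_quot N A (by omega) hA0
      have hcard := ncard_ge_divisors (k := k) A N q hA0 hqA
      have hdiv : A.divisors.card = j + 1 := by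
        rw [hA, Nat.divisors_prime_pow Nat.prime_two, card_map, card_range]
      rw [hdiv] at hcard
      have hcard' : ((q : ℝ) + 1) ^ (j + 1) ≤ (smooth k A N).ncard := by exact_mod_cast hcard
      have hqr : 1 / (ε * A) ≤ (q : ℝ) + 1 := by
        have h2 : (N : ℝ) ≤ ((q : ℝ) + 1) * A := by exact_mod_cast hq1
        rw [div_le_iff₀ (by positivity)]
        have h3 := hNle.trans h2
        rw [div_le_iff₀ hε] at h3
        linarith
      have h2 : (1 / (ε * A)) ^ (j + 1) ≤ ((q : ℝ) + 1) ^ (j + 1) :=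
        pow_le_pow_left₀ (by positivity) hqr _
      have h3 : 2 * (1 / ε ^ j) ≤ (1 / (ε * A)) ^ (j + 1) := by
        have h4 : (1 / (ε * A)) ^ (j + 1) = 1 / ε ^ j * (1 / (ε * (A : ℝ) ^ (j + 1))) := by
          rw [one_div_pow, mul_pow, pow_succ ε j]
          field_simp
        rw [h4, mul_comm]
        refine mul_le_mul_of_nonneg_left ?_ (by positivity)
        rw [le_div_iff₀ (by positivity)]
        have h5 : ε * (2 * (A : ℝ) ^ (j + 2)) ≤ 1 := by
          rw [hδ, le_div_iff₀ (by positivity)] at h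
          exact h
        have h6 : (A : ℝ) ^ (j + 1) ≤ (A : ℝ) ^ (j + 2) := pow_le_pow_right₀ hA1 (by omega)
        nlinarith
      have h4 : δ ^ j / 2 / ε ^ j ≤ 1 / 2 * (1 / ε ^ j) := by
        rw [div_eq_mul_one_div (δ ^ j / 2)]
        refine mul_le_mul_of_nonneg_right ?_ (by positivity)
        have := pow_le_one₀ hδ0.le hδ1.le (n := j)
        linarith
      linarith
  · refine ⟨1, N, one_pos, by omega, hεN, ?_⟩
    have hcard := ncard_ge_divisors (k := k) 1 N (N - 1) one_pos (by omega)
    rw [Nat.divisors_one, card_singleton, pow_one] at hcard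
    have hcard' : (2 : ℝ) ≤ (smooth k 1 N).ncard := by
      have : 2 ≤ (smooth k 1 N).ncard := by omega
      exact_mod_cast this
    have h4 : δ ^ j / 2 / ε ^ j ≤ 1 / 2 := by
      rw [div_le_iff₀ (by positivity)]
      have := pow_le_pow_left₀ hδ0.le h.le j
      linarith
    linarith

end Pool.Agent.ED72
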