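import Mathlib

/-!
# Rational curves in the hyperplane `∑ Z_i = 0` with few zeros

For a field `k` of characteristic zero, `A ≥ 1` and a monic polynomial `R` over `k` all of whose
irreducible factors divide `X W`, `W = 1 + X + … + X ^ (A - 1)`, the curve
`(σ X ^ A, σ c (X - 1) R, y_0, …, y_m, - sum)` with constants `y_i`, `σ = - ∑ y_i` and
`c = - A / R(1)` has last coordinate `- σ (X - 1) (W + c R)`, and all its coordinates divide a power
of `X (W + c R)`. A polynomial of small degree that does not vanish on the hyperplane does not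
vanish on one of these curves.
-/

namespace Pool.Agent.ED72

open Polynomial Finset

section vec

variable {B : Type*} [CommRing B] {m : ℕ}

/-- The vector `(u, v, y_0, …, y_m, -(u + v + ∑ y))`. -/
def vec (u v : B) (y : Fin (m + 1) → B) : Fin (m + 4) → B :=
  Fin.cons u (Fin.cons v (Fin.snoc (α := fun _ => B) y (-(u + v + ∑ i, y i))))

theorem forall_idx {P : Fin (m + 4) → Prop} (h0 : P 0) (h1 : P 1)
    (h2 : ∀ i : Fin (m + 1), P i.castSucc.succ.succ) (h3 : P (Fin.last (m + 3))) : ∀ j, P j := by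
  intro j
  refine Fin.cases h0 (fun j => ?_) j
  refine Fin.cases h1 (fun j => ?_) j
  refine Fin.lastCases ?_ (fun j => h2 j) j
  exact h3

@[simp] theorem vec_zero (u v : B) (y : Fin (m + 1) → B) : vec u v y 0 = u := rfl

@[simp] theorem vec_one (u v : B) (y : Fin (m + 1) → B) : vec u v y 1 = v := rfl

@[simp] theorem vec_mid (u v : B) (y : Fin (m + 1) → B) (i : Fin (m + 1)) :
    vec u v y i.castSucc.succ.succ = y i := by
  rw [vec, Fin.cons_succ, Fin.cons_succ, Fin.snoc_castSucc]

@[simp] theorem vec_last (u v : B) (y : Fin (m + 1) → B) :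
    vec u v y (Fin.last (m + 3)) = -(u + v + ∑ i, y i) := by
  have h : Fin.last (m + 3) = (Fin.last (m + 1)).succ.succ := rfl
  rw [h, vec, Fin.cons_succ, Fin.cons_succ, Fin.snoc_last]

theorem sum_idx (x : Fin (m + 4) → B) :
    ∑ j, x j = x 0 + x 1 + ∑ i : Fin (m + 1), x i.castSucc.succ.succ + x (Fin.last (m + 3)) := by
  rw [Fin.sum_univ_succ, Fin.sum_univ_succ, Fin.sum_univ_castSucc]
  have h : (Fin.last (m + 1)).succ.succ = Fin.last (m + 3) := rfl
  have h1 : (Fin.succ 0 : Fin (m + 4)) = 1 := rfl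
  rw [h, h1]
  ring

theorem sum_vec (u v : B) (y : Fin (m + 1) → B) : ∑ j, vec u v y j = 0 := by
  rw [sum_idx]
  simp

theorem vec_eq (x : Fin (m + 4) → B) (hx : ∑ j, x j = 0) :
    vec (x 0) (x 1) (fun i : Fin (m + 1) => x i.castSucc.succ.succ) = x := by
  funext j
  revert j
  refine forall_idx (by simp) (by simp) (fun i => by rw [vec_mid]) ?_
  rw [sum_idx] at hx
  rw [vec_last]
  linear_combination (-1 : B) * hx

theorem map_vec {C : Type*} [CommRing C] (f : B →+* C) (u v : B) (y : Fin (m + 1) → B)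
    (j : Fin (m + 4)) : f (vec u v y j) = vec (f u) (f v) (fun i => f (y i)) j := by
  revert j
  refine forall_idx (by simp) (by simp) (fun i => by rw [vec_mid, vec_mid]) ?_
  rw [vec_last, vec_last]
  simp

end vec

section

variable {L : Type*} [Field L] [CharZero L] {m : ℕ}

theorem exists_int (F : MvPolynomial (Fin (m + 4)) L)
    (hF0 : ∃ x : Fin (m + 4) → L, ∑ i, x i = 0 ∧ MvPolynomial.eval x F ≠ 0) :
    ∃ (u v : ℤ) (y : Fin (m + 1) → ℤ), (∀ i, y i ≠ 0) ∧ ∑ i, y i ≠ 0 ∧
      MvPolynomial.eval (vec (u : L) (v : L) (fun i => (y i : L))) F ≠ 0 := by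
  classical
  obtain ⟨x, hx, hxF⟩ := hF0
  set G : MvPolynomial (Fin (m + 3)) L := MvPolynomial.aeval
    (vec (MvPolynomial.X 0) (MvPolynomial.X 1)
      (fun i : Fin (m + 1) => MvPolynomial.X i.succ.succ)) F with hG
  have hGe : ∀ p : Fin (m + 3) → L, MvPolynomial.eval p G =
      MvPolynomial.eval (vec (p 0) (p 1) (fun i : Fin (m + 1) => p i.succ.succ)) F := by
    intro p
    have h1 : MvPolynomial.eval p G = MvPolynomial.eval₂ (algebraMap L L) p G := rfl
    rw [h1, hG, MvPolynomial.aeval_def]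
    have h2 := MvPolynomial.hom_eval₂ F (algebraMap L (MvPolynomial (Fin (m + 3)) L))
      (MvPolynomial.eval₂Hom (algebraMap L L) p)
      (vec (MvPolynomial.X 0) (MvPolynomial.X 1)
        (fun i : Fin (m + 1) => (MvPolynomial.X i.succ.succ : MvPolynomial (Fin (m + 3)) L)))
    rw [← MvPolynomial.coe_eval₂Hom, h2]
    have h3 : (MvPolynomial.eval₂Hom (algebraMap L L) p).comp
        (algebraMap L (MvPolynomial (Fin (m + 3)) L)) = RingHom.id L := by
      ext a
      simp
    rw [h3, MvPolynomial.eval₂_id]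
    congr 1
    congr 1
    funext j
    rw [map_vec]
    simp
  set S : MvPolynomial (Fin (m + 3)) L := ∑ i : Fin (m + 1), MvPolynomial.X i.succ.succ with hS
  set P : MvPolynomial (Fin (m + 3)) L := ∏ i : Fin (m + 1), MvPolynomial.X i.succ.succ with hP
  have hG0 : G ≠ 0 := by
    intro h
    apply hxF
    have h1 := hGe (Fin.cons (x 0) (Fin.cons (x 1) fun i : Fin (m + 1) => x i.castSucc.succ.succ))
    rw [h, map_zero] at h1
    have h2 := vec_eq x hx
    rw [← h2]
    exact h1.symm
  have hS0 : S ≠ 0 := by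
    intro h
    have h1 := congrArg (MvPolynomial.eval (fun _ => (1 : L))) h
    rw [hS, map_sum, map_zero] at h1
    simp only [MvPolynomial.eval_X, sum_const, card_univ, Fintype.card_fin, nsmul_eq_mul,
      mul_one] at h1
    exact (Nat.cast_ne_zero.2 (Nat.succ_ne_zero m)) h1
  have hP0 : P ≠ 0 := by
    rw [hP, Finset.prod_ne_zero_iff]
    intro i _
    exact MvPolynomial.X_ne_zero _
  have hne : G * S * P ≠ 0 := mul_ne_zero (mul_ne_zero hG0 hS0) hP0
  have hex : ∃ p : Fin (m + 3) → L, (∀ i, p i ∈ Set.range (Int.cast : ℤ → L)) ∧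
      MvPolynomial.eval p (G * S * P) ≠ 0 := by
    by_contra hcon
    push Not at hcon
    apply hne
    apply MvPolynomial.funext_set (fun _ => Set.range (Int.cast : ℤ → L))
      (fun _ => Set.infinite_range_of_injective Int.cast_injective)
    intro p hp
    rw [map_zero]
    exact hcon p fun i => hp i (Set.mem_univ i)
  obtain ⟨p, hp, hpe⟩ := hex
  choose q hq using hp
  rw [map_mul, map_mul] at hpe
  have h1 := left_ne_zero_of_mul (left_ne_zero_of_mul hpe)
  have h2 := right_ne_zero_of_mul (left_ne_zero_of_mul hpe)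
  have h3 := right_ne_zero_of_mul hpe
  refine ⟨q 0, q 1, fun i => q i.succ.succ, ?_, ?_, ?_⟩
  · intro i hi
    rw [hP, map_prod, Finset.prod_ne_zero_iff] at h3
    apply h3 i (mem_univ i)
    rw [MvPolynomial.eval_X, ← hq]
    exact Int.cast_eq_zero.2 hi
  · intro hi
    apply h2
    rw [hS, map_sum]
    simp only [MvPolynomial.eval_X]
    rw [← Int.cast_zero (R := L), ← hi, Int.cast_sum]
    exact Finset.sum_congr rfl fun i _ => (hq _).symm
  · rw [hGe] at h1
    simp only [← hq] at h1
    exact h1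

omit [CharZero L] in
/-- Root counting in the second coordinate. -/
theorem exists_ne_zero (F : MvPolynomial (Fin (m + 4)) L) (A : ℕ) (hA : 0 < A) (u v σ : L)
    (hσ : σ ≠ 0) (y : Fin (m + 1) → L) (hF : MvPolynomial.eval (vec u v y) F ≠ 0)
    {ι : Type*} (s : Finset ι) (V : ι → L[X]) (hV : Set.InjOn V s)
    (hs : F.totalDegree < s.card) :
    ∃ i ∈ s, MvPolynomial.aeval (vec (C σ * X ^ A) (V i) (fun i => C (y i))) F ≠ 0 := by
  classical
  set w : Fin (m + 4) → L[X][X] :=
    vec (C (C σ * X ^ A)) X (fun i => C (C (y i))) with hw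
  set g : L[X][X] := MvPolynomial.aeval w (MvPolynomial.map (C : L →+* L[X]) F) with hg
  have hdeg : g.natDegree ≤ F.totalDegree := by
    have h1 := MvPolynomial.aeval_natDegree_le (MvPolynomial.map (C : L →+* L[X]) F)
      (m := F.totalDegree) (n := 1)
      (Finset.sup_mono (MvPolynomial.support_map_subset _ _)) w ?_
    · rwa [mul_one] at h1
    · have hlow : ∀ j : Fin (m + 4), (w j).natDegree ≤ 1 := by
        refine forall_idx ?_ ?_ (fun i => ?_) ?_
        · rw [hw, vec_zero, natDegree_C]; exact Nat.zero_le _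
        · rw [hw, vec_one, natDegree_X]
        · rw [hw, vec_mid, natDegree_C]; exact Nat.zero_le _
        · rw [hw, vec_last, natDegree_neg]
          refine (natDegree_add_le _ _).trans (max_le ?_ ?_)
          · refine (natDegree_add_le _ _).trans (max_le ?_ ?_)
            · rw [natDegree_C]; exact Nat.zero_le _
            · rw [natDegree_X]
          · rw [← map_sum, natDegree_C]; exact Nat.zero_le _
      exact hlow
  -- evaluation of `g`
  have heval : ∀ P : L[X], eval P g =
      MvPolynomial.aeval (vec (C σ * X ^ A) P (fun i => C (y i))) F := by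
    intro P
    rw [hg, MvPolynomial.aeval_def, MvPolynomial.eval₂_map]
    have h2 := MvPolynomial.hom_eval₂ F ((algebraMap L[X] L[X][X]).comp C) (evalRingHom P) w
    rw [coe_evalRingHom] at h2
    rw [h2, MvPolynomial.aeval_def]
    have h3 : (evalRingHom P).comp ((algebraMap L[X] L[X][X]).comp (C : L →+* L[X])) =
        algebraMap L L[X] := by
      ext a
      simp
    rw [h3]
    congr 1
    funext j
    have h4 := map_vec (evalRingHom P) (C (C σ * X ^ A) : L[X][X]) X
      (fun i : Fin (m + 1) => C (C (y i))) j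
    rw [← hw, coe_evalRingHom] at h4
    rw [h4]
    simp
  -- `g` is not zero
  have hg0 : g ≠ 0 := by
    intro h
    obtain ⟨x, hx⟩ := IsAlgClosed.exists_pow_nat_eq
      ((algebraMap L (AlgebraicClosure L)) (u / σ)) hA
    have h1 : MvPolynomial.aeval (vec (C σ * X ^ A) (C v) (fun i => C (y i))) F = 0 := by
      rw [← heval, h, eval_zero]
    apply hF
    have h2 := congrArg (aeval x : L[X] →ₐ[L] AlgebraicClosure L) h1
    rw [map_zero, MvPolynomial.aeval_def, ← AlgHom.coe_toRingHom] at h2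
    have h3 := MvPolynomial.hom_eval₂ F (algebraMap L L[X])
      (aeval x : L[X] →ₐ[L] AlgebraicClosure L).toRingHom
      (vec (C σ * X ^ A) (C v) (fun i => C (y i)))
    have h3' := h3.symm.trans h2
    have h4 : ((aeval x : L[X] →ₐ[L] AlgebraicClosure L).toRingHom).comp (algebraMap L L[X]) =
        algebraMap L (AlgebraicClosure L) := by
      ext a
      simp
    rw [h4] at h3'
    have h5 : (fun j => (aeval x : L[X] →ₐ[L] AlgebraicClosure L).toRingHom
        (vec (C σ * X ^ A) (C v) (fun i => C (y i)) j)) =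
        fun j => algebraMap L (AlgebraicClosure L) (vec u v y j) := by
      funext j
      rw [map_vec, map_vec]
      congr 1
      · simp only [AlgHom.toRingHom_eq_coe, RingHom.coe_coe, map_mul, aeval_C, map_pow, aeval_X, hx]
        rw [← map_mul]
        congr 1
        field_simp
      · simp
      · funext i
        simp
    rw [h5] at h3'
    apply (algebraMap L (AlgebraicClosure L)).injective
    rw [map_zero, ← h3']
    have h6 := MvPolynomial.hom_eval₂ F (RingHom.id L) (algebraMap L (AlgebraicClosure L))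
      (vec u v y)
    rw [MvPolynomial.eval₂_id] at h6
    rw [h6, RingHom.comp_id]
  by_contra hcon
  push Not at hcon
  have hroots : (s.image V).val ⊆ g.roots := by
    intro P hP
    rw [mem_val, mem_image] at hP
    obtain ⟨i, hi, rfl⟩ := hP
    rw [mem_roots hg0, IsRoot.def, heval]
    exact hcon i hi
  have h1 := card_le_degree_of_subset_roots hroots
  rw [card_image_of_injOn hV] at h1
  omega

end

/-- The monic polynomials of degree less than `N` that divide a power of
`X (1 + X + … + X ^ (A - 1))`. -/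
def smooth (k : Type*) [Field k] (A N : ℕ) : Set k[X] :=
  {R | R.Monic ∧ R.natDegree < N ∧ ∃ j, R ∣ (X * ∑ i ∈ range A, X ^ i) ^ j}

section

variable {k : Type*} [Field k]

theorem natDegree_geom (A : ℕ) (hA : 0 < A) :
    (∑ i ∈ range A, (X : k[X]) ^ i).natDegree = A - 1 := by
  have h : (∑ i ∈ range A, (X : k[X]) ^ i) * (X - 1) = X ^ A - 1 := geom_sum_mul X A
  have h1 := congrArg natDegree h
  have hX : (X - 1 : k[X]) ≠ 0 := by
    rw [← C_1]; exact X_sub_C_ne_zero 1
  have hg : (∑ i ∈ range A, (X : k[X]) ^ i) ≠ 0 := by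
    intro h0
    rw [h0, zero_mul] at h
    have h2 := congrArg natDegree h
    rw [← C_1, natDegree_zero, natDegree_X_pow_sub_C] at h2
    omega
  rw [natDegree_mul hg hX, ← C_1, natDegree_X_sub_C, natDegree_X_pow_sub_C] at h1
  omega

theorem monic_geom (A : ℕ) (hA : 0 < A) : (∑ i ∈ range A, (X : k[X]) ^ i).Monic := by
  have h : (∑ i ∈ range A, (X : k[X]) ^ i) * (X - 1) = X ^ A - 1 := geom_sum_mul X A
  have h1 : (X - 1 : k[X]).Monic := by rw [← C_1]; exact monic_X_sub_C 1
  refine Monic.of_mul_monic_right h1 ?_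
  rw [h, ← C_1]
  exact monic_X_pow_sub_C 1 hA.ne'

variable [CharZero k]

/-- The curves. -/
theorem exists_curve {L : Type*} [Field L] [Algebra k L] (m A N : ℕ) (hA : 0 < A) (hAN : A ≤ N)
    (F : MvPolynomial (Fin (m + 4)) L) (hF : F.totalDegree + 1 < (smooth k A N).ncard)
    (hF0 : ∃ x : Fin (m + 4) → L, ∑ i, x i = 0 ∧ MvPolynomial.eval x F ≠ 0) :
    ∃ (z : Fin (m + 4) → k[X]) (U : k[X]) (d a : ℕ), d + 1 ≤ N ∧ ∑ i, z i = 0 ∧ (∀ i, z i ≠ 0) ∧
      (∀ i, z i ∣ (X * U) ^ a) ∧ U ≠ 0 ∧ U.natDegree ≤ d ∧ (∃ i, (z i).natDegree = d + 1) ∧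
      (∃ i c, c ≠ 0 ∧ z i = C c) ∧
      MvPolynomial.aeval (fun i => (z i).map (algebraMap k L)) F ≠ 0 := by
  classical
  have hcz : CharZero L := charZero_of_injective_algebraMap (algebraMap k L).injective
  obtain ⟨u, v, y, hy, hys, hyF⟩ := exists_int F hF0
  set W : k[X] := ∑ i ∈ range A, X ^ i with hW
  have hWm : W.Monic := monic_geom A hA
  have hWd : W.natDegree = A - 1 := natDegree_geom A hA
  have hW1 : eval 1 W = A := by simp [hW, eval_finsetSum]
  have hWmul : W * (X - 1) = X ^ A - 1 := geom_sum_mul X A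
  have hfin : (smooth k A N).Finite := by
    apply Set.finite_of_ncard_ne_zero
    omega
  have hR1 : ∀ R ∈ smooth k A N, eval 1 R ≠ 0 := by
    rintro R ⟨-, -, j, hj⟩ h
    obtain ⟨Q, hQ⟩ := hj
    have h1 := congrArg (eval 1) hQ
    rw [eval_mul, h, zero_mul, eval_pow, eval_mul, ← hW, hW1, eval_X, one_mul] at h1
    exact pow_ne_zero j (Nat.cast_ne_zero.2 hA.ne') h1
  have hWS : W ∈ smooth k A N := by
    refine ⟨hWm, by omega, 1, ?_⟩
    rw [pow_one]
    exact Dvd.intro_left _ rfl
  set σ : k := -∑ i, (y i : k) with hσ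
  have hσ0 : σ ≠ 0 := by
    rw [hσ, neg_ne_zero, ← Int.cast_sum]
    exact Int.cast_ne_zero.2 hys
  clear_value σ
  set c : k[X] → k := fun R => -(A : k) / eval 1 R with hc
  have hc0 : ∀ R ∈ smooth k A N, c R ≠ 0 := by
    intro R hR
    exact div_ne_zero (neg_ne_zero.2 (Nat.cast_ne_zero.2 hA.ne')) (hR1 R hR)
  have hX1 : (X - 1 : k[X]).Monic := by rw [← C_1]; exact monic_X_sub_C 1
  set V : k[X] → k[X] := fun R => C (σ * c R) * ((X - 1) * R) with hV
  have hVinj : Set.InjOn V (smooth k A N) := by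
    intro R hR R' hR' h
    have h1 : (V R).leadingCoeff = σ * c R := by
      rw [hV]
      simp only
      rw [leadingCoeff_mul, leadingCoeff_C, (hX1.mul hR.1).leadingCoeff, mul_one]
    have h2 : (V R').leadingCoeff = σ * c R' := by
      rw [hV]
      simp only
      rw [leadingCoeff_mul, leadingCoeff_C, (hX1.mul hR'.1).leadingCoeff, mul_one]
    have h3 : σ * c R = σ * c R' := by rw [← h1, ← h2, h]
    have h4 : C (σ * c R) * ((X - 1) * R) = C (σ * c R) * ((X - 1) * R') := by
      have h5 : V R = V R' := h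
      rw [hV] at h5
      simp only at h5
      rw [h5, h3]
    have h5 := mul_left_cancel₀ (C_ne_zero.2 (mul_ne_zero hσ0 (hc0 R hR))) h4
    exact mul_left_cancel₀ hX1.ne_zero h5
  set s : Finset k[X] := hfin.toFinset.erase W with hs
  have hsmem : ∀ R ∈ s, R ∈ smooth k A N ∧ R ≠ W := by
    intro R hR
    rw [hs, mem_erase, Set.Finite.mem_toFinset] at hR
    exact ⟨hR.2, hR.1⟩
  have hcard : F.totalDegree < s.card := by
    rw [hs, card_erase_of_mem (hfin.mem_toFinset.2 hWS), ← Set.ncard_eq_toFinset_card _ hfin]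
    omega
  have hVinj2 : Set.InjOn (fun R => (V R).map (algebraMap k L)) s := by
    intro R hR R' hR' h
    have h1 : V R = V R' := map_injective _ (algebraMap k L).injective h
    exact hVinj (hsmem R hR).1 (hsmem R' hR').1 h1
  obtain ⟨R, hRs, hRF⟩ := exists_ne_zero F A hA u v (algebraMap k L σ)
    (by rwa [Ne, map_eq_zero]) (fun i => (y i : L)) hyF s
    (fun R => (V R).map (algebraMap k L)) hVinj2 hcard
  obtain ⟨hRS, hRW⟩ := hsmem R hRs
  obtain ⟨hRm, hRd, j, hRj⟩ := hRS
  set U : k[X] := W + C (c R) * R with hU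
  have hU0 : U ≠ 0 := by
    intro h
    have h1 : W = C (-c R) * R := by
      rw [C_neg, neg_mul]
      exact eq_neg_of_add_eq_zero_left h
    have h2 := congrArg leadingCoeff h1
    rw [leadingCoeff_mul, leadingCoeff_C, hRm.leadingCoeff, hWm.leadingCoeff, mul_one] at h2
    rw [← h2, C_1, one_mul] at h1
    exact hRW h1.symm
  have hU1 : (X - 1 : k[X]) ∣ U := by
    rw [← C_1, dvd_iff_isRoot, IsRoot.def, hU, eval_add, hW1, eval_mul, eval_C, hc]
    simp only
    rw [div_mul_cancel₀ _ (hR1 R ⟨hRm, hRd, j, hRj⟩)]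
    ring
  have hRU : R ∣ (X * U) ^ j := by
    have h1 : R ∣ X * W - X * U := by
      refine ⟨-(X * C (c R)), ?_⟩
      rw [hU]
      ring
    have h2 : R ∣ (X * W) ^ j - (X * U) ^ j := h1.trans (sub_dvd_pow_sub_pow _ _ _)
    have h3 := dvd_sub hRj h2
    rwa [sub_sub_cancel] at h3
  set z : Fin (m + 4) → k[X] := vec (C σ * X ^ A) (V R) (fun i => C (y i : k)) with hz
  have hzlast : z (Fin.last (m + 3)) = C (-σ) * ((X - 1) * U) := by
    rw [hz, vec_last, hV]
    simp only
    have h1 : ∑ i : Fin (m + 1), C ((y i : ℤ) : k) = -C σ := by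
      rw [← map_sum, hσ, C_neg, neg_neg]
    rw [h1, hU, C_neg, C_mul]
    linear_combination (C σ) * hWmul
  have hunit : ∀ a : k, a ≠ 0 → ∀ P Q : k[X], P ∣ Q → C a * P ∣ Q := by
    intro a ha P Q h
    exact (isUnit_C.2 (isUnit_iff_ne_zero.2 ha)).mul_left_dvd.2 h
  refine ⟨z, U, max (A - 1) R.natDegree, A + (j + 1) + 2, ?_, sum_vec _ _ _, ?_, ?_, hU0, ?_, ?_,
    ?_, ?_⟩
  · omega
  · refine forall_idx ?_ ?_ (fun i => ?_) ?_
    · rw [hz, vec_zero]
      exact mul_ne_zero (C_ne_zero.2 hσ0) (pow_ne_zero _ X_ne_zero)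
    · rw [hz, vec_one, hV]
      exact mul_ne_zero (C_ne_zero.2 (mul_ne_zero hσ0 (hc0 R ⟨hRm, hRd, j, hRj⟩)))
        (mul_ne_zero hX1.ne_zero hRm.ne_zero)
    · rw [hz, vec_mid, Ne, C_eq_zero]
      exact Int.cast_ne_zero.2 (hy i)
    · rw [hzlast]
      exact mul_ne_zero (C_ne_zero.2 (neg_ne_zero.2 hσ0)) (mul_ne_zero hX1.ne_zero hU0)
  · refine forall_idx ?_ ?_ (fun i => ?_) ?_
    · rw [hz, vec_zero]
      refine hunit _ hσ0 _ _ ?_
      refine (pow_dvd_pow_of_dvd (Dvd.intro _ rfl) A).trans (pow_dvd_pow _ (by omega))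
    · rw [hz, vec_one, hV]
      refine hunit _ (mul_ne_zero hσ0 (hc0 R ⟨hRm, hRd, j, hRj⟩)) _ _ ?_
      refine Dvd.dvd.trans (b := (X * U) ^ (j + 1)) ?_ (pow_dvd_pow _ (by omega))
      rw [pow_succ, mul_comm (X - 1) R]
      exact mul_dvd_mul hRU (hU1.trans (Dvd.intro_left _ rfl))
    · rw [hz, vec_mid]
      rw [← mul_one (C _)]
      exact hunit _ (Int.cast_ne_zero.2 (hy i)) _ _ (one_dvd _)
    · rw [hzlast]
      refine hunit _ (neg_ne_zero.2 hσ0) _ _ ?_
      refine Dvd.dvd.trans (b := (X * U) ^ 2) ?_ (pow_dvd_pow _ (by omega))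
      rw [pow_two]
      exact mul_dvd_mul (hU1.trans (Dvd.intro_left _ rfl)) (Dvd.intro_left _ rfl)
  · rw [hU]
    refine (natDegree_add_le _ _).trans (max_le_max hWd.le ?_)
    exact natDegree_C_mul_le _ _
  · rcases le_or_gt R.natDegree (A - 1) with h | h
    · refine ⟨0, ?_⟩
      rw [hz, vec_zero, natDegree_C_mul_X_pow _ _ hσ0]
      omega
    · refine ⟨1, ?_⟩
      rw [hz, vec_one, hV]
      simp only
      rw [natDegree_C_mul (mul_ne_zero hσ0 (hc0 R ⟨hRm, hRd, j, hRj⟩)),
        hX1.natDegree_mul hRm]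
      have h2 : (X - 1 : k[X]).natDegree = 1 := by rw [← C_1, natDegree_X_sub_C]
      omega
  · exact ⟨(0 : Fin (m + 1)).castSucc.succ.succ, (y 0 : k), Int.cast_ne_zero.2 (hy 0), by
      rw [hz, vec_mid]⟩
  · have h1 : (fun i => (z i).map (algebraMap k L)) =
        vec (C (algebraMap k L σ) * X ^ A) ((V R).map (algebraMap k L))
          (fun i => C (y i : L)) := by
      funext i
      have h2 := map_vec (mapRingHom (algebraMap k L)) (C σ * X ^ A) (V R)
        (fun i => C (y i : k)) i
      rw [← hz, coe_mapRingHom] at h2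
      rw [h2]
      congr 1
      · simp
      · funext i
        simp
    rw [h1]
    exact hRF

end

end Pool.Agent.ED72
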