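import Pool.Agent.ED72.NF
import Pool.Agent.H4FF.Prod

/-!
# Points on curves with few zeros: function fields
-/

namespace Pool.Agent.ED72

open Polynomial Finset Filter Topology IntermediateField
open H4FF

universe u v

section

variable {k : Type u} {K : Type v} [Field k] [Field K] [Algebra k K]

theorem val_aeval_le (v : Place k K) {x : K} (hx : v.val x ≤ 1) (p : k[X]) :
    v.val (aeval x p) ≤ 1 := by
  induction p using Polynomial.induction_on' with
  | add p q hp hq =>
    rw [map_add]
    exact (v.val.map_add _ _).trans (max_le hp hq)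
  | monomial n a =>
    rw [aeval_monomial, map_mul, map_pow]
    exact mul_le_one' (v.triv_le a) (pow_le_one' hx n)

theorem lg_aeval (v : Place k K) {x : K} (hx : Transcendental k x) (p : k[X]) (hp : p ≠ 0) :
    max (v.lg (aeval x p)) 0 = p.natDegree * max (v.lg x) 0 := by
  have hx0 : x ≠ 0 := fun h => hx (by rw [h]; exact isAlgebraic_zero)
  have hpx : aeval x p ≠ 0 := fun h => hp ((transcendental_iff.1 hx) _ h)
  rcases le_or_gt (v.lg x) 0 with h | h
  · have h1 : v.lg (aeval x p) ≤ 0 := by
      rw [v.lg_nonpos_iff hpx]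
      exact val_aeval_le v ((v.lg_nonpos_iff hx0).1 h) p
    rw [max_eq_right h1, max_eq_right h, mul_zero]
  · have hinv : Invertible x := invertibleOfNonzero hx0
    have h3 := eval₂_reverse_mul_pow (algebraMap k K) x p
    rw [invOf_eq_inv, ← aeval_def, ← aeval_def] at h3
    have hxi : v.val x⁻¹ < 1 := by
      rw [← v.lg_neg_iff (inv_ne_zero hx0), v.lg_inv]
      linarith
    have h4 : v.val (aeval x⁻¹ p.reverse) = 1 := by
      have h5 : aeval x⁻¹ p.reverse = algebraMap k K p.leadingCoeff +
          x⁻¹ * aeval x⁻¹ p.reverse.divX := by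
        conv_lhs => rw [← p.reverse.X_mul_divX_add]
        rw [map_add, map_mul, aeval_X, aeval_C, coeff_zero_reverse]
        ring
      rw [h5]
      have h6 : v.val (algebraMap k K p.leadingCoeff) = 1 := v.triv _ (leadingCoeff_ne_zero.2 hp)
      have h7 : v.val (x⁻¹ * aeval x⁻¹ p.reverse.divX) < 1 := by
        rw [map_mul]
        exact mul_lt_one_of_lt_of_le hxi (val_aeval_le v hxi.le _)
      rw [Valuation.map_add_eq_of_lt_left, h6]
      rw [h6]
      exact h7
    have h5 : v.lg (aeval x p) = p.natDegree * v.lg x := by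
      have h6 : aeval x⁻¹ p.reverse ≠ 0 := by
        intro h7
        rw [h7, map_zero] at h4
        exact zero_ne_one h4
      rw [← h3, v.lg_mul h6 (pow_ne_zero _ hx0), v.lg_pow]
      have h7 : v.lg (aeval x⁻¹ p.reverse) = 0 := by
        rw [Place.lg, h4, WithZero.log_one]
      rw [h7, zero_add]
    rw [h5, max_eq_left h.le, max_eq_left]
    positivity

/-- The degree of the divisor of poles. -/
noncomputable def poles (k : Type u) {K : Type v} [Field k] [Field K] [Algebra k K] (y : K) : ℤ :=
  ∑ᶠ v : Place k K, (v.deg : ℤ) * max (v.lg y) 0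

theorem transcendental_pow {x : K} (hx : Transcendental k x) {r : ℕ} (hr : 0 < r) :
    Transcendental k (x ^ r) := fun h => hx (h.of_pow hr)

theorem poles_aeval {x : K} (hx : Transcendental k x) (p : k[X]) (hp : p ≠ 0) (r : ℕ)
    (hr : 0 < r) : poles k (aeval (x ^ r) p) = p.natDegree * (r * poles k x) := by
  rw [poles, poles, ← mul_assoc, ← smul_eq_mul (_ * _ : ℤ), smul_finsum]
  refine finsum_congr fun v => ?_
  rw [lg_aeval v (transcendental_pow hx hr) p hp, v.lg_pow, smul_eq_mul]
  have h1 : max ((r : ℤ) * v.lg x) 0 = r * max (v.lg x) 0 := by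
    rw [mul_max_of_nonneg _ _ (Nat.cast_nonneg r), mul_zero]
  rw [h1]
  ring

variable [CharZero k]

theorem finite_support' (hfg : (⊤ : IntermediateField k K).FG) (htr : Algebra.trdeg k K = 1)
    {n : ℕ} (z : Fin n → K) : {v : Place k K | ∃ i, v.lg (z i) ≠ 0}.Finite := by
  have h : {v : Place k K | ∃ i, v.lg (z i) ≠ 0} = ⋃ i, {v : Place k K | v.lg (z i) ≠ 0} := by
    ext v
    simp
  rw [h]
  exact Set.finite_iUnion fun i => finite_support hfg htr (z i)

theorem poles_le_height (hfg : (⊤ : IntermediateField k K).FG) (htr : Algebra.trdeg k K = 1)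
    {n : ℕ} (z : Fin n → K) (i j : Fin n) (hj : IsAlgebraic k (z j)) :
    poles k (z i) ≤ height k z := by
  have hfin := finite_support' hfg htr z
  have hn : Nonempty (Fin n) := ⟨i⟩
  rw [poles, height]
  refine finsum_le_finsum' ?_ ?_ fun v => ?_
  · refine hfin.subset fun v hv => ⟨i, fun h => hv ?_⟩
    simp only [h, max_self, mul_zero]
  · refine hfin.subset fun v hv => ?_
    by_contra hcon
    apply hv
    have h1 : ∀ i, v.lg (z i) = 0 := by
      intro i
      by_contra h
      exact hcon ⟨i, h⟩
    simp only [h1, ciSup_const, mul_zero]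
  · refine mul_le_mul_of_nonneg_left ?_ (Nat.cast_nonneg _)
    have hb : BddAbove (Set.range fun i => v.lg (z i)) := (Set.finite_range _).bddAbove
    refine max_le (le_ciSup hb i) ?_
    have h1 := le_ciSup hb j
    rw [v.lg_of_isAlgebraic hj] at h1
    exact h1

theorem poles_inv (hfg : (⊤ : IntermediateField k K).FG) (htr : Algebra.trdeg k K = 1) (y : K) :
    poles k y⁻¹ = poles k y := by
  have hfin := finite_support hfg htr y
  have h1 := prod_formula hfg htr y
  have h2 : poles k y - poles k y⁻¹ = 0 := by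
    rw [poles, poles, ← finsum_sub_distrib]
    · refine (finsum_congr fun v => ?_).trans h1
      rw [v.lg_inv, ← mul_sub]
      congr 1
      rcases le_total (v.lg y) 0 with h | h
      · rw [max_eq_right h, max_eq_left (by linarith)]
        ring
      · rw [max_eq_left h, max_eq_right (by linarith)]
        ring
    · refine hfin.subset fun v hv h => hv ?_
      simp only [h, max_self, mul_zero]
    · refine hfin.subset fun v hv h => hv ?_
      simp only [v.lg_inv, h, neg_zero, max_self, mul_zero]
  linarith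

theorem poles_pos (hfg : (⊤ : IntermediateField k K).FG) (htr : Algebra.trdeg k K = 1) {x : K}
    (hx : Transcendental k x) : 0 < poles k x := by
  have hx' : Transcendental k x⁻¹ := fun h => hx (by simpa using h.inv)
  have hx0 : x ≠ 0 := fun h => hx (by rw [h]; exact isAlgebraic_zero)
  have i2 := finiteDimensional_adjoin hfg htr hx'
  obtain ⟨T, hT1, hT2⟩ := zeros hx'
  have hT3 : ∀ v, v ∈ T ↔ 0 < v.lg x := by
    intro v
    rw [hT1, ← v.lg_neg_iff (inv_ne_zero hx0), v.lg_inv]
    constructor <;> intro h <;> linarith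
  have h1 : poles k x = ∑ v ∈ T, (v.deg : ℤ) * max (v.lg x) 0 := by
    rw [poles]
    refine finsum_eq_sum_of_support_subset _ fun v hv => ?_
    rw [mem_coe, hT3]
    by_contra h
    apply hv
    change (v.deg : ℤ) * max (v.lg x) 0 = 0
    rw [max_eq_right (not_lt.1 h), mul_zero]
  have h2 : ∑ v ∈ T, (v.deg : ℤ) * max (v.lg x) 0 = Module.finrank k⟮x⁻¹⟯ K := by
    rw [← neg_inj, ← hT2, ← Finset.sum_neg_distrib]
    refine Finset.sum_congr rfl fun v hv => ?_
    rw [v.lg_inv, max_eq_left ((hT3 v).1 hv).le]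
    ring
  rw [h1, h2]
  exact_mod_cast Module.finrank_pos

/-- The radical of a point on the curve. -/
theorem rad_le (hfg : (⊤ : IntermediateField k K).FG) (htr : Algebra.trdeg k K = 1) {t : K}
    (ht : Transcendental k t) {n : ℕ} (z : Fin n → k[X]) (U : k[X]) (a : ℕ)
    (hz : ∀ i, z i ∣ (X * U) ^ a) (hU : U ≠ 0) :
    ∃ c : ℤ, ∀ r : ℕ, 0 < r →
      rad k (fun i => aeval (t ^ r) (z i)) ≤ c + poles k (aeval (t ^ r) U) := by
  classical
  have ht0 : t ≠ 0 := fun h => ht (by rw [h]; exact isAlgebraic_zero)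
  choose w hw using hz
  refine ⟨∑ᶠ v : Place k K, if v.lg t = 0 then 0 else (v.deg : ℤ), fun r hr => ?_⟩
  have htr' := transcendental_pow ht hr
  have hne : ∀ p : k[X], p ≠ 0 → aeval (t ^ r) p ≠ 0 := fun p hp h =>
    hp ((transcendental_iff.1 htr') _ h)
  have hz0 : ∀ i, z i ≠ 0 := by
    intro i h
    have h1 := hw i
    rw [h, zero_mul] at h1
    exact pow_ne_zero _ (mul_ne_zero X_ne_zero hU) h1
  have hw0 : ∀ i, w i ≠ 0 := by
    intro i h
    have h1 := hw i
    rw [h, mul_zero] at h1
    exact pow_ne_zero _ (mul_ne_zero X_ne_zero hU) h1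
  have hfin1 := finite_support' hfg htr (fun i => aeval (t ^ r) (z i))
  have hfin2 := finite_support hfg htr t
  have hfin3 := finite_support hfg htr (aeval (t ^ r) U)⁻¹
  rw [← poles_inv hfg htr, poles, rad, ← finsum_add_distrib]
  · refine finsum_le_finsum' ?_ ?_ fun v => ?_
    · refine hfin1.subset fun v hv => ?_
      by_contra hcon
      apply hv
      have h1 : ∀ i, v.lg (aeval (t ^ r) (z i)) = 0 := by
        intro i
        by_contra h
        exact hcon ⟨i, h⟩
      have h2 : ∀ i j, v.lg (aeval (t ^ r) (z i)) = v.lg (aeval (t ^ r) (z j)) := by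
        intro i j
        rw [h1, h1]
      simp only [if_pos h2]
    · refine (hfin2.union hfin3).subset fun v hv => ?_
      by_contra hcon
      rw [Set.mem_union, not_or] at hcon
      have h1 : v.lg t = 0 := not_not.1 hcon.1
      have h2 : v.lg (aeval (t ^ r) U)⁻¹ = 0 := not_not.1 hcon.2
      apply hv
      change (if v.lg t = 0 then 0 else (v.deg : ℤ)) + _ = 0
      rw [if_pos h1, h2, max_self, mul_zero, add_zero]
    · simp only
      have hnn : (0 : ℤ) ≤ (v.deg : ℤ) * max (v.lg (aeval (t ^ r) U)⁻¹) 0 := by positivity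
      split_ifs with h1 h2 h2
      · simpa using hnn
      · have : (0 : ℤ) ≤ v.deg := Nat.cast_nonneg _
        linarith
      · -- `t` is a unit
        rw [zero_add]
        have hlt : v.lg (t ^ r) = 0 := by rw [v.lg_pow, h2, mul_zero]
        have hle : ∀ p : k[X], p ≠ 0 → v.lg (aeval (t ^ r) p) ≤ 0 := by
          intro p hp
          rw [v.lg_nonpos_iff (hne p hp)]
          exact val_aeval_le v ((v.lg_nonpos_iff (pow_ne_zero _ ht0)).1 hlt.le) p
        have hU1 : v.lg (aeval (t ^ r) U) ≠ 0 := by
          intro hU1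
          apply h1
          have h3 : ∀ i, v.lg (aeval (t ^ r) (z i)) = 0 := by
            intro i
            have h4 := congrArg (fun p => v.lg (aeval (t ^ r) p)) (hw i)
            simp only [map_pow, map_mul, aeval_X] at h4
            rw [v.lg_pow, v.lg_mul (pow_ne_zero _ ht0) (hne U hU), hlt, hU1,
              v.lg_mul (hne _ (hz0 i)) (hne _ (hw0 i))] at h4
            have h5 := hle _ (hz0 i)
            have h6 := hle _ (hw0 i)
            simp only [add_zero, mul_zero] at h4
            linarith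
          intro i j
          rw [h3, h3]
        have hU2 := hle U hU
        have h3 : 1 ≤ max (v.lg (aeval (t ^ r) U)⁻¹) 0 := by
          rw [v.lg_inv]
          refine le_max_of_le_left ?_
          omega
        have h4 : (0 : ℤ) ≤ v.deg := Nat.cast_nonneg _
        nlinarith
      · linarith
  · refine hfin2.subset fun v hv h => hv ?_
    change (if v.lg t = 0 then 0 else (v.deg : ℤ)) = 0
    rw [if_pos h]
  · refine hfin3.subset fun v hv h => hv ?_
    change (v.deg : ℤ) * _ = 0
    rw [h, max_self, mul_zero]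

/-- The main theorem for function fields. -/
theorem ff (hfg : (⊤ : IntermediateField k K).FG) (htr : Algebra.trdeg k K = 1)
    {L : Type*} [Field L] [Algebra K L] (m A N : ℕ) (hA : 0 < A) (hAN : A ≤ N)
    (F : MvPolynomial (Fin (m + 4)) L) (hF : F.totalDegree + 1 < (smooth k A N).ncard)
    (hF0 : ∃ x : Fin (m + 4) → L, ∑ i, x i = 0 ∧ MvPolynomial.eval x F ≠ 0)
    (ε B : ℝ) (hε : 0 ≤ ε) (hεN : ε * (N - 1) < 1) :
    ∃ z : Fin (m + 4) → K, (∀ i, z i ≠ 0) ∧ ∑ i, z i = 0 ∧
      MvPolynomial.eval (fun i => algebraMap K L (z i)) F ≠ 0 ∧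
      (1 + ε) * rad k z + B ≤ height k z := by
  let _ : Algebra k L := ((algebraMap K L).comp (algebraMap k K)).toAlgebra
  have hst : IsScalarTower k K L := IsScalarTower.of_algebraMap_eq fun _ => rfl
  obtain ⟨z, U, d, a, hdN, hzs, hz0, hzU, hU0, hUd, ⟨i₁, hi₁⟩, ⟨i₀, c₀, hc₀, hi₀⟩, hzF⟩ :=
    exists_curve m A N hA hAN F hF hF0
  obtain ⟨t, ht⟩ : ∃ t : K, Transcendental k t := by
    have h1 : Algebra.trdeg k K ≠ 0 := by rw [htr]; exact one_ne_zero
    have h2 : ¬ Algebra.IsAlgebraic k K := fun h => h1 (trdeg_eq_zero_iff.2 h)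
    rw [Algebra.isAlgebraic_def] at h2
    push Not at h2
    exact h2
  have ht0 : t ≠ 0 := fun h => ht (by rw [h]; exact isAlgebraic_zero)
  obtain ⟨c, hrad⟩ := rad_le hfg htr ht z U a hzU hU0
  have hpos := poles_pos hfg htr ht
  have hinjL : Function.Injective (algebraMap K L) := (algebraMap K L).injective
  have hinj : Function.Injective fun r : ℕ => t ^ r := by
    have h1 : ∀ r s : ℕ, r < s → t ^ r ≠ t ^ s := by
      intro r s hrs h
      have h2 : t ^ r * t ^ (s - r) = t ^ r * 1 := by
        rw [← pow_add, mul_one, Nat.add_sub_cancel' hrs.le, h]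
      have h3 := mul_left_cancel₀ (pow_ne_zero r ht0) h2
      refine transcendental_pow ht (Nat.sub_pos_of_lt hrs) ?_
      rw [h3]
      exact isAlgebraic_one
    intro r s h
    rcases lt_trichotomy r s with h2 | h2 | h2
    · exact absurd h (h1 r s h2)
    · exact h2
    · exact absurd h.symm (h1 s r h2)
  have hinj2 : Function.Injective fun r : ℕ => (algebraMap K L t) ^ r := by
    intro r s h
    apply hinj
    apply hinjL
    simpa using h
  have e1 := eventually_eval_ne' _ hzF hinj2
  have hlin : Tendsto (fun r : ℕ => (r : ℝ) * ((poles k t : ℝ) * (1 - ε * d))) atTop atTop := by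
    refine tendsto_natCast_atTop_atTop.atTop_mul_const ?_
    refine mul_pos (by exact_mod_cast hpos) ?_
    have h1 : (d : ℝ) + 1 ≤ N := by exact_mod_cast hdN
    nlinarith
  have e2 := hlin.eventually_ge_atTop ((1 + ε) * c + B)
  obtain ⟨r, h1, h2, hr⟩ := (e1.and (e2.and (eventually_gt_atTop 0))).exists
  have htr' := transcendental_pow ht hr
  have hne : ∀ p : k[X], p ≠ 0 → aeval (t ^ r) p ≠ 0 := fun p hp h =>
    hp ((transcendental_iff.1 htr') _ h)
  refine ⟨fun i => aeval (t ^ r) (z i), fun i => hne _ (hz0 i), ?_, ?_, ?_⟩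
  · rw [← map_sum, hzs, map_zero]
  · rw [eval_curve] at h1
    have h3 : (fun i => aeval (algebraMap K L t ^ r) (z i)) =
        fun i => algebraMap K L (aeval (t ^ r) (z i)) := by
      funext i
      rw [← map_pow, aeval_algebraMap_apply]
    rwa [h3] at h1
  · have h3 := hrad r hr
    have h4 := poles_le_height hfg htr (fun i => aeval (t ^ r) (z i)) i₁ i₀ (by
      simp only [hi₀, aeval_C]
      exact isAlgebraic_algebraMap c₀)
    rw [poles_aeval ht _ (hz0 i₁) r hr, hi₁] at h4
    rw [poles_aeval ht _ hU0 r hr] at h3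
    have h5 : ((U.natDegree : ℤ) * (r * poles k t)) ≤ d * (r * poles k t) := by
      refine mul_le_mul_of_nonneg_right (by exact_mod_cast hUd) ?_
      positivity
    have h6 : (rad k (fun i => aeval (t ^ r) (z i)) : ℝ) ≤ c + d * (r * poles k t) := by
      exact_mod_cast h3.trans (by linarith)
    have h7 : ((d : ℝ) + 1) * (r * poles k t) ≤ height k (fun i => aeval (t ^ r) (z i)) := by
      exact_mod_cast h4
    have h8 := mul_le_mul_of_nonneg_left h6 (show (0 : ℝ) ≤ 1 + ε by linarith)
    have h9 : (r : ℝ) * ((poles k t : ℝ) * (1 - ε * d)) =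
        ((d : ℝ) + 1) * (r * poles k t) - (1 + ε) * (d * (r * poles k t)) := by ring
    rw [h9] at h2
    linarith

end

end Pool.Agent.ED72
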