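import Pool.Agent.ED72.Curve

/-!
# Points on curves with few zeros: number fields
-/

namespace Pool.Agent.ED72

open Polynomial NumberField Finset Filter Topology

theorem tendsto_log_norm (p : ℂ[X]) (hp : p ≠ 0) :
    Tendsto (fun r : ℕ => Real.log ‖eval ((2 : ℂ) ^ r) p‖ - r * (p.natDegree * Real.log 2)) atTop
      (𝓝 (Real.log ‖p.leadingCoeff‖)) := by
  have h2 : (2 : ℂ) ≠ 0 := two_ne_zero
  have hlc : p.leadingCoeff ≠ 0 := leadingCoeff_ne_zero.2 hp
  have h1 : ∀ r : ℕ, eval ((2 : ℂ) ^ r) p = eval (((2 : ℂ) ^ r)⁻¹) p.reverse *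
      ((2 : ℂ) ^ r) ^ p.natDegree := by
    intro r
    have hinv : Invertible ((2 : ℂ) ^ r) := invertibleOfNonzero (pow_ne_zero _ h2)
    have h3 := eval₂_reverse_mul_pow (RingHom.id ℂ) ((2 : ℂ) ^ r) p
    rw [invOf_eq_inv] at h3
    exact h3.symm
  have h4 : Tendsto (fun r : ℕ => ((2 : ℂ) ^ r)⁻¹) atTop (𝓝 0) := by
    have h5 : Tendsto (fun r : ℕ => ((2 : ℂ)⁻¹) ^ r) atTop (𝓝 0) :=
      tendsto_pow_atTop_nhds_zero_of_norm_lt_one (by
        rw [norm_inv]
        norm_num)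
    refine h5.congr fun r => ?_
    rw [inv_pow]
  have h5 : Tendsto (fun r : ℕ => eval (((2 : ℂ) ^ r)⁻¹) p.reverse) atTop
      (𝓝 p.leadingCoeff) := by
    have h6 := (p.reverse.continuous.tendsto (0 : ℂ)).comp h4
    rw [← coeff_zero_eq_eval_zero, coeff_zero_reverse] at h6
    exact h6
  have h6 : Tendsto (fun r : ℕ => Real.log ‖eval (((2 : ℂ) ^ r)⁻¹) p.reverse‖) atTop
      (𝓝 (Real.log ‖p.leadingCoeff‖)) :=
    h5.norm.log (norm_ne_zero_iff.2 hlc)
  refine h6.congr' ?_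
  have h7 : ∀ᶠ r : ℕ in atTop, eval (((2 : ℂ) ^ r)⁻¹) p.reverse ≠ 0 := h5.eventually_ne hlc
  filter_upwards [h7] with r hr
  rw [h1, norm_mul, Real.log_mul (norm_ne_zero_iff.2 hr)
    (norm_ne_zero_iff.2 (pow_ne_zero _ (pow_ne_zero _ h2))), norm_pow, norm_pow, Complex.norm_ofNat,
    Real.log_pow, Real.log_pow]
  ring

/-- A nonzero polynomial does not vanish at large powers of `x`. -/
theorem eventually_eval_ne' {L : Type*} [Field L] (p : L[X]) (hp : p ≠ 0) {x : L}
    (hinj : Function.Injective fun r : ℕ => x ^ r) : ∀ᶠ r : ℕ in atTop, eval (x ^ r) p ≠ 0 := by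
  have hfin : {r : ℕ | eval (x ^ r) p = 0}.Finite := by
    have h1 : (p.rootSet L).Finite := p.rootSet_finite L
    refine (h1.preimage (hinj.injOn (s := (fun r : ℕ => x ^ r) ⁻¹' _))).subset ?_
    intro r hr
    rw [Set.mem_preimage, mem_rootSet]
    exact ⟨hp, by rw [← eval_map_algebraMap]; simpa using hr⟩
  have h2 := hfin.compl_mem_cofinite
  rw [Nat.cofinite_eq_atTop] at h2
  exact h2

/-- Evaluation of a polynomial at the values of a curve. -/
theorem eval_curve {k L : Type*} [Field k] [Field L] [Algebra k L] {n : ℕ}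
    (F : MvPolynomial (Fin n) L) (z : Fin n → k[X]) (x : L) :
    eval x (MvPolynomial.aeval (fun i => (z i).map (algebraMap k L)) F) =
      MvPolynomial.eval (fun i => aeval x (z i)) F := by
  have h9 := MvPolynomial.hom_eval₂ F (algebraMap L L[X]) (evalRingHom x)
    (fun i => (z i).map (algebraMap k L))
  have h10 : (evalRingHom x).comp (algebraMap L L[X]) = RingHom.id L := by
    ext a
    simp
  rw [h10, MvPolynomial.eval₂_id, coe_evalRingHom, ← MvPolynomial.aeval_def] at h9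
  rw [h9]
  congr 2
  funext i
  exact eval_map_algebraMap _ _

section

variable {K : Type*} [Field K] [NumberField K]

omit [NumberField K] in
theorem tendsto_inf (w : InfinitePlace K) (p : K[X]) (hp : p ≠ 0) :
    Tendsto (fun r : ℕ => Real.log (w (eval ((2 : K) ^ r) p)) - r * (p.natDegree * Real.log 2))
      atTop (𝓝 (Real.log (w p.leadingCoeff))) := by
  have h1 := tendsto_log_norm (p.map w.embedding)
    ((Polynomial.map_ne_zero_iff w.embedding.injective).2 hp)
  rw [natDegree_map, leadingCoeff_map, InfinitePlace.norm_embedding_eq] at h1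
  refine h1.congr fun r => ?_
  rw [← InfinitePlace.norm_embedding_eq, ← eval₂_hom, map_pow, map_ofNat, eval_map]

/-- The sum over the infinite places of `mult · log |p(2 ^ r)|`. -/
noncomputable def arch (p : K[X]) (r : ℕ) : ℝ :=
  ∑ w : InfinitePlace K, w.mult * Real.log (w (eval ((2 : K) ^ r) p))

theorem tendsto_arch (p : K[X]) (hp : p ≠ 0) :
    ∃ c : ℝ, Tendsto (fun r : ℕ => arch p r -
      Module.finrank ℚ K * (r * (p.natDegree * Real.log 2))) atTop (𝓝 c) := by
  refine ⟨∑ w : InfinitePlace K, w.mult * Real.log (w p.leadingCoeff), ?_⟩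
  have h1 := tendsto_finsetSum (univ : Finset (InfinitePlace K)) fun w _ =>
    (tendsto_inf w p hp).const_mul (w.mult : ℝ)
  refine h1.congr fun r => ?_
  have h2 : ((∑ w : InfinitePlace K, w.mult : ℕ) : ℝ) = Module.finrank ℚ K := by
    rw [InfinitePlace.sum_mult_eq]
  rw [arch, ← h2, Nat.cast_sum, sum_mul, ← sum_sub_distrib]
  refine Finset.sum_congr rfl fun w _ => ?_
  ring

theorem logHeight_ge {n : ℕ} (z : Fin n → K) (i j : Fin n) (hi : z i ≠ 0) (hj : z j ≠ 0) :
    ∑ w : InfinitePlace K, w.mult * Real.log (w (z i)) -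
      ∑ w : InfinitePlace K, w.mult * Real.log (w (z j)) ≤ Height.logHeight z := by
  have h1 : Height.logHeight (z ∘ ![i, j]) ≤ Height.logHeight z := Height.logHeight_comp_le _ _
  have h2 : z ∘ ![i, j] = ![z i, z j] := by
    funext a
    fin_cases a <;> rfl
  rw [h2, ← Height.logHeight₁_div_eq_logHeight, NumberField.logHeight₁_eq] at h1
  refine le_trans ?_ h1
  have h3 : 0 ≤ ∑ᶠ v : FinitePlace K, Real.posLog (v (z i / z j)) :=
    finsum_nonneg fun v => Real.posLog_nonneg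
  rw [← sum_sub_distrib]
  refine le_trans ?_ (le_add_of_nonneg_right h3)
  refine Finset.sum_le_sum fun w _ => ?_
  rw [← mul_sub]
  refine mul_le_mul_of_nonneg_left ?_ (Nat.cast_nonneg _)
  rw [map_div₀, ← Real.log_div ((map_ne_zero w).2 hi) ((map_ne_zero w).2 hj)]
  exact le_max_right _ _

theorem sum_primes_le (b : 𝓞 K) (hb : b ≠ 0) (S : Set (IsDedekindDomain.HeightOneSpectrum (𝓞 K)))
    (hS : ∀ v ∈ S, b ∈ v.asIdeal) :
    (∑ᶠ v ∈ S, Real.log (Ideal.absNorm v.asIdeal)) ≤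
      ∑ w : InfinitePlace K, w.mult * Real.log (w (b : K)) := by
  classical
  have hspan : Ideal.span {b} ≠ 0 := by
    rw [Ideal.zero_eq_bot, Ne, Ideal.span_singleton_eq_bot]; exact hb
  have hbad : ∀ v ∈ S, v.asIdeal ∣ Ideal.span {b} := fun v hv =>
    Ideal.dvd_span_singleton.2 (hS v hv)
  have hfin : S.Finite := (Ideal.finite_factors hspan).subset fun v hv => hbad v hv
  rw [finsum_mem_eq_finite_toFinset_sum _ hfin]
  set V := hfin.toFinset with hV
  have hNv : ∀ v : IsDedekindDomain.HeightOneSpectrum (𝓞 K), (Ideal.absNorm v.asIdeal : ℝ) ≠ 0 :=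
    fun v => by
      have : Ideal.absNorm v.asIdeal ≠ 0 := by
        rw [Ne, Ideal.absNorm_eq_zero_iff]; exact v.ne_bot
      exact_mod_cast this
  rw [← Real.log_prod fun v _ => hNv v]
  have hprod : ∏ v ∈ V, v.asIdeal ∣ Ideal.span {b} := by
    have hinj : Set.InjOn (fun v : IsDedekindDomain.HeightOneSpectrum (𝓞 K) => v.asIdeal) V :=
      fun v _ w _ h => IsDedekindDomain.HeightOneSpectrum.ext h
    have h1 : ∏ v ∈ V, v.asIdeal = ∏ I ∈ V.image (fun v => v.asIdeal), I := by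
      rw [Finset.prod_image hinj]
    rw [h1]
    refine Finset.prod_primes_dvd _ ?_ ?_
    · intro I hI
      obtain ⟨v, _, rfl⟩ := mem_image.mp hI
      exact v.prime
    · intro I hI
      obtain ⟨v, hv, rfl⟩ := mem_image.mp hI
      exact hbad v (hfin.mem_toFinset.mp hv)
  have hnorm : ∏ v ∈ V, Ideal.absNorm v.asIdeal ≤ (Algebra.norm ℤ b).natAbs := by
    have h1 : Ideal.absNorm (∏ v ∈ V, v.asIdeal) ∣ Ideal.absNorm (Ideal.span {b}) :=
      map_dvd Ideal.absNorm hprod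
    rw [map_prod, Ideal.absNorm_span_singleton] at h1
    exact Nat.le_of_dvd (Int.natAbs_pos.2 (Algebra.norm_ne_zero_iff.2 hb)) h1
  have hpos : 0 < ∏ v ∈ V, (Ideal.absNorm v.asIdeal : ℝ) := by
    refine Finset.prod_pos fun v _ => ?_
    have h1 : (Ideal.absNorm v.asIdeal : ℝ) ≠ 0 := hNv v
    positivity
  have hcast : ∏ v ∈ V, (Ideal.absNorm v.asIdeal : ℝ) ≤ ((Algebra.norm ℤ b).natAbs : ℝ) := by
    exact_mod_cast hnorm
  refine (Real.log_le_log hpos hcast).trans (le_of_eq ?_)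
  have h2 : ((Algebra.norm ℤ b).natAbs : ℝ) = ∏ w : InfinitePlace K, w (b : K) ^ w.mult := by
    rw [InfinitePlace.prod_eq_abs_norm, ← Algebra.coe_norm_int]
    rw [Nat.cast_natAbs]
    push_cast
    rfl
  rw [h2, Real.log_prod]
  · refine Finset.sum_congr rfl fun w _ => ?_
    rw [Real.log_pow]
  · intro w _
    refine pow_ne_zero _ ((map_ne_zero w).2 ?_)
    exact_mod_cast hb

/-- Clearing denominators. -/
theorem exists_integral {ι : Type*} [Fintype ι] (p : ι → K[X]) :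
    ∃ M : 𝓞 K, M ≠ 0 ∧ ∀ i, ∃ q : (𝓞 K)[X], q.map (algebraMap (𝓞 K) K) =
      C (algebraMap (𝓞 K) K M) * p i := by
  classical
  have h1 : ∀ i, ∃ b : 𝓞 K, b ≠ 0 ∧ ∃ q : (𝓞 K)[X], q.map (algebraMap (𝓞 K) K) =
      C (algebraMap (𝓞 K) K b) * p i := by
    intro i
    obtain ⟨b, hbM, hb⟩ := IsLocalization.integerNormalization_spec (nonZeroDivisors (𝓞 K)) (p i)
    refine ⟨b, nonZeroDivisors.ne_zero hbM,
      IsLocalization.integerNormalization (nonZeroDivisors (𝓞 K)) (p i), ?_⟩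
    rw [hb, ← algebraMap_smul K b (p i), smul_eq_C_mul]
  choose b hb q hq using h1
  refine ⟨∏ i, b i, Finset.prod_ne_zero_iff.2 fun i _ => hb i, fun i => ?_⟩
  refine ⟨C (∏ j ∈ univ.erase i, b j) * q i, ?_⟩
  rw [Polynomial.map_mul, map_C, hq, ← mul_assoc, ← C_mul, ← map_mul,
    Finset.prod_erase_mul _ _ (mem_univ i)]

open IsDedekindDomain in
theorem rad_arch {n : ℕ} (z : Fin n → K[X]) (U : K[X]) (a : ℕ) (hz : ∀ i, z i ∣ (X * U) ^ a) :
    ∃ κ : K, κ ≠ 0 ∧ ∀ r : ℕ, eval ((2 : K) ^ r) U ≠ 0 →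
      (∑ᶠ v ∈ {v : HeightOneSpectrum (𝓞 K) | ∃ i j,
        v.valuation K (eval ((2 : K) ^ r) (z i)) ≠ v.valuation K (eval ((2 : K) ^ r) (z j))},
          Real.log (Ideal.absNorm v.asIdeal)) ≤ arch (C κ * U) r := by
  choose w hw using hz
  obtain ⟨M₁, hM₁, hq₁⟩ := exists_integral z
  obtain ⟨M₂, hM₂, hq₂⟩ := exists_integral w
  obtain ⟨M₃, hM₃, hq₃⟩ := exists_integral fun _ : Unit => U
  choose z' hz' using hq₁
  choose w' hw' using hq₂
  obtain ⟨U', hU'⟩ := hq₃ ()
  have hinj : Function.Injective (algebraMap (𝓞 K) K) := RingOfIntegers.coe_injective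
  have hpoly : ∀ i, C (M₃ ^ a) * (z' i * w' i) = C (M₁ * M₂) * (X * U') ^ a := by
    intro i
    apply map_injective _ hinj
    rw [Polynomial.map_mul, Polynomial.map_mul, Polynomial.map_mul, Polynomial.map_pow,
      Polynomial.map_mul, map_C, map_C, map_X, hz', hw', hU', map_mul, map_pow, C_mul, C_pow]
    have h1 := hw i
    linear_combination (-(C (algebraMap (𝓞 K) K M₃) ^ a * C (algebraMap (𝓞 K) K M₁) *
      C (algebraMap (𝓞 K) K M₂))) * h1
  refine ⟨algebraMap (𝓞 K) K (2 * M₁ * M₂ * M₃ * M₃), ?_, fun r hr => ?_⟩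
  · rw [Ne, map_eq_zero_iff _ hinj]
    exact mul_ne_zero (mul_ne_zero (mul_ne_zero (mul_ne_zero two_ne_zero hM₁) hM₂) hM₃) hM₃
  set x : 𝓞 K := 2 ^ r with hx
  have hxK : algebraMap (𝓞 K) K x = (2 : K) ^ r := by
    rw [hx, map_pow, map_ofNat]
  have hev : ∀ (q : (𝓞 K)[X]), algebraMap (𝓞 K) K (eval x q) =
      eval ((2 : K) ^ r) (q.map (algebraMap (𝓞 K) K)) := by
    intro q
    rw [eval_map, ← hxK, eval₂_at_apply]
  set b : 𝓞 K := 2 * M₁ * M₂ * M₃ * eval x U' with hb
  have hbK : algebraMap (𝓞 K) K b =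
      eval ((2 : K) ^ r) (C (algebraMap (𝓞 K) K (2 * M₁ * M₂ * M₃ * M₃)) * U) := by
    rw [hb, map_mul, hev, hU', eval_mul, eval_C, eval_mul, eval_C, ← mul_assoc, ← map_mul]
  have hb0 : b ≠ 0 := by
    intro h
    rw [h, map_zero, eval_mul, eval_C] at hbK
    refine mul_ne_zero ?_ hr hbK.symm
    rw [Ne, map_eq_zero_iff _ hinj]
    exact mul_ne_zero (mul_ne_zero (mul_ne_zero (mul_ne_zero two_ne_zero hM₁) hM₂) hM₃) hM₃
  refine (sum_primes_le b hb0 _ ?_).trans (le_of_eq ?_)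
  · rintro v ⟨i₀, j₀, hij⟩
    by_contra hbv
    have hprime := v.isPrime
    have e5 : eval x U' ∉ v.asIdeal := fun h => hbv (Ideal.mul_mem_left _ _ h)
    have e4 : M₃ ∉ v.asIdeal := fun h =>
      hbv (Ideal.mul_mem_right _ _ (Ideal.mul_mem_left _ _ h))
    have e3 : M₂ ∉ v.asIdeal := fun h =>
      hbv (Ideal.mul_mem_right _ _ (Ideal.mul_mem_right _ _ (Ideal.mul_mem_left _ _ h)))
    have e2 : M₁ ∉ v.asIdeal := fun h =>
      hbv (Ideal.mul_mem_right _ _ (Ideal.mul_mem_right _ _ (Ideal.mul_mem_right _ _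
        (Ideal.mul_mem_left _ _ h))))
    have e1 : (2 : 𝓞 K) ∉ v.asIdeal := fun h =>
      hbv (Ideal.mul_mem_right _ _ (Ideal.mul_mem_right _ _ (Ideal.mul_mem_right _ _
        (Ideal.mul_mem_right _ _ h))))
    have ex : x ∉ v.asIdeal := fun h => e1 (hprime.mem_of_pow_mem _ h)
    have hone : ∀ y : 𝓞 K, y ∉ v.asIdeal → v.valuation K (algebraMap (𝓞 K) K y) = 1 := by
      intro y hy
      exact v.valuation_eq_one_iff_notMem.2 hy
    have hall : ∀ i, v.valuation K (eval ((2 : K) ^ r) (z i)) = 1 := by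
      intro i
      have h1 := congrArg (eval x) (hpoly i)
      rw [eval_mul, eval_C, eval_mul, eval_mul, eval_C, eval_pow, eval_mul, eval_X] at h1
      have h2 : M₁ * M₂ * (x * eval x U') ^ a ∉ v.asIdeal := by
        intro h
        rcases hprime.mem_or_mem h with h3 | h3
        · rcases hprime.mem_or_mem h3 with h4 | h4
          · exact e2 h4
          · exact e3 h4
        · rcases hprime.mem_or_mem (hprime.mem_of_pow_mem _ h3) with h4 | h4
          · exact ex h4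
          · exact e5 h4
      have h3 : eval x (z' i) ∉ v.asIdeal := by
        intro h
        apply h2
        rw [← h1]
        exact Ideal.mul_mem_left _ _ (Ideal.mul_mem_right _ _ h)
      have h4 := hone _ h3
      rw [hev, hz', eval_mul, eval_C, map_mul, hone _ e2, one_mul] at h4
      exact h4
    exact hij ((hall i₀).trans (hall j₀).symm)
  · rw [arch]
    refine Finset.sum_congr rfl fun w _ => ?_
    rw [← hbK]

/-- A nonzero polynomial does not vanish at large powers of `2`. -/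
theorem eventually_eval_ne {L : Type*} [Field L] [CharZero L] (p : L[X]) (hp : p ≠ 0) :
    ∀ᶠ r : ℕ in atTop, eval ((2 : L) ^ r) p ≠ 0 := by
  refine eventually_eval_ne' p hp fun r s h => ?_
  have h1 : ((2 ^ r : ℕ) : L) = ((2 ^ s : ℕ) : L) := by
    push_cast
    exact h
  exact Nat.pow_right_injective le_rfl (Nat.cast_injective h1)

/-- The main theorem for number fields. -/
theorem nf {L : Type*} [Field L] [Algebra K L] (m A N : ℕ) (hA : 0 < A) (hAN : A ≤ N)
    (F : MvPolynomial (Fin (m + 4)) L) (hF : F.totalDegree + 1 < (smooth K A N).ncard)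
    (hF0 : ∃ x : Fin (m + 4) → L, ∑ i, x i = 0 ∧ MvPolynomial.eval x F ≠ 0)
    (ε B : ℝ) (hε : 0 ≤ ε) (hεN : ε * (N - 1) < 1) :
    ∃ z : Fin (m + 4) → K, (∀ i, z i ≠ 0) ∧ ∑ i, z i = 0 ∧
      MvPolynomial.eval (fun i => algebraMap K L (z i)) F ≠ 0 ∧
      (1 + ε) * ((∑ᶠ v ∈ {v : IsDedekindDomain.HeightOneSpectrum (𝓞 K) |
        ∃ i j, v.valuation K (z i) ≠ v.valuation K (z j)},
          Real.log (Ideal.absNorm v.asIdeal)) / Module.finrank ℚ K) + B ≤
        Height.logHeight z / Module.finrank ℚ K := by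
  obtain ⟨z, U, d, a, hdN, hzs, hz0, hzU, hU0, hUd, ⟨i₁, hi₁⟩, ⟨i₀, c₀, hc₀, hi₀⟩, hzF⟩ :=
    exists_curve m A N hA hAN F hF hF0
  have hcz : CharZero L := charZero_of_injective_algebraMap (algebraMap K L).injective
  obtain ⟨κ, hκ, hrad⟩ := rad_arch z U a hzU
  have hκU : C κ * U ≠ 0 := mul_ne_zero (C_ne_zero.2 hκ) hU0
  obtain ⟨c₁, hc₁⟩ := tendsto_arch (z i₁) (hz0 i₁)
  obtain ⟨c₂, hc₂⟩ := tendsto_arch (z i₀) (hz0 i₀)
  obtain ⟨c₃, hc₃⟩ := tendsto_arch (C κ * U) hκU
  set D : ℝ := ((Module.finrank ℚ K : ℕ) : ℝ) with hD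
  have hDpos : 0 < D := by
    rw [hD]; exact_mod_cast Module.finrank_pos
  have hlog2 : 0 < Real.log 2 := Real.log_pos (by norm_num)
  have e1 := hc₁.eventually (lt_mem_nhds (show c₁ - 1 < c₁ by linarith))
  have e2 := hc₂.eventually (gt_mem_nhds (show c₂ < c₂ + 1 by linarith))
  have e3 := hc₃.eventually (gt_mem_nhds (show c₃ < c₃ + 1 by linarith))
  have hlin : Tendsto (fun r : ℕ => (r : ℝ) * (D * Real.log 2 * (1 - ε * d))) atTop atTop := by
    refine tendsto_natCast_atTop_atTop.atTop_mul_const ?_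
    refine mul_pos (mul_pos hDpos hlog2) ?_
    have h1 : (d : ℝ) + 1 ≤ N := by exact_mod_cast hdN
    nlinarith
  have e4 := hlin.eventually_ge_atTop (D * B + (1 + ε) * (c₃ + 1) + (c₂ + 1) - (c₁ - 1))
  have e5 := eventually_eval_ne _ hzF
  have e6 : ∀ᶠ r : ℕ in atTop, ∀ i, eval ((2 : K) ^ r) (z i) ≠ 0 := by
    rw [eventually_all]
    intro i
    exact eventually_eval_ne _ (hz0 i)
  have e7 := eventually_eval_ne _ hU0
  obtain ⟨r, h1, h2, h3, h4, h5, h6, h7⟩ :=
    (e1.and (e2.and (e3.and (e4.and (e5.and (e6.and e7)))))).exists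
  refine ⟨fun i => eval ((2 : K) ^ r) (z i), h6, ?_, ?_, ?_⟩
  · rw [← eval_finsetSum, hzs, eval_zero]
  · intro h
    apply h5
    rw [eval_curve]
    have h11 : (fun i => aeval ((2 : L) ^ r) (z i)) =
        fun i => algebraMap K L (eval ((2 : K) ^ r) (z i)) := by
      funext i
      have h12 : (2 : L) ^ r = algebraMap K L ((2 : K) ^ r) := by
        rw [map_pow, map_ofNat]
      rw [h12, aeval_algebraMap_apply, coe_aeval_eq_eval]
    rw [h11]
    exact h
  · have h8 := hrad r h7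
    have h9 := logHeight_ge (fun i => eval ((2 : K) ^ r) (z i)) i₁ i₀ (h6 i₁) (h6 i₀)
    change arch (z i₁) r - arch (z i₀) r ≤ _ at h9
    rw [hi₁] at h1
    have hz₀d : (z i₀).natDegree = 0 := by rw [hi₀, natDegree_C]
    rw [hz₀d] at h2
    push_cast at h1 h2 h3
    have hdeg : ((C κ * U).natDegree : ℝ) ≤ d := by
      rw [natDegree_C_mul hκ]
      exact_mod_cast hUd
    have h3' : arch (C κ * U) r ≤ c₃ + 1 + D * (r * (d * Real.log 2)) := by
      have h10 : D * (r * ((C κ * U).natDegree * Real.log 2)) ≤ D * (r * (d * Real.log 2)) := by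
        refine mul_le_mul_of_nonneg_left ?_ hDpos.le
        refine mul_le_mul_of_nonneg_left ?_ (Nat.cast_nonneg _)
        exact mul_le_mul_of_nonneg_right hdeg hlog2.le
      linarith
    rw [le_div_iff₀ hDpos]
    have h11 := h8.trans h3'
    have h12 : ((1 + ε) * ((∑ᶠ v ∈ {v : IsDedekindDomain.HeightOneSpectrum (𝓞 K) |
        ∃ i j, v.valuation K (eval ((2 : K) ^ r) (z i)) ≠
          v.valuation K (eval ((2 : K) ^ r) (z j))},
          Real.log (Ideal.absNorm v.asIdeal)) / D) + B) * D =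
        (1 + ε) * (∑ᶠ v ∈ {v : IsDedekindDomain.HeightOneSpectrum (𝓞 K) |
        ∃ i j, v.valuation K (eval ((2 : K) ^ r) (z i)) ≠
          v.valuation K (eval ((2 : K) ^ r) (z j))},
          Real.log (Ideal.absNorm v.asIdeal)) + D * B := by
      field_simp
    rw [h12]
    have h13 := mul_le_mul_of_nonneg_left h11 (show (0 : ℝ) ≤ 1 + ε by linarith)
    have h14 : (r : ℝ) * (D * Real.log 2 * (1 - ε * d)) =
        D * (r * (((d : ℝ) + 1) * Real.log 2)) - (1 + ε) * (D * (r * (d * Real.log 2))) := by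
      ring
    rw [h14] at h4
    linarith

end

end Pool.Agent.ED72
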